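import Pool.Agent.L5helper16.LG.Defs4

/-!
# D1: one window (for helper16, project LG)
-/

set_option autoImplicit false

namespace Pool.Agent.L5helper15.LG

open Finset MeasureTheory ProbabilityTheory Filter Topology
open Pool.Agent.L5helper86.UL Pool.Agent.L5helper16.LG

theorem ff_zero (Q : Finset ℕ) : ff Q 0 = 1 := by
  simp [ff]

theorem ff_one (Q : Finset ℕ) : ff Q 1 = 1 - VV Q := by
  unfold ff VV
  rw [sum_range_succ, sum_range_succ, sum_range_zero]
  simp
  ring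

theorem ff_exp (b4 : St_B4) {M : ℕ} (hM : 2 ≤ M) (Q : Finset ℕ) (hQ : ∀ p ∈ Q, M ≤ p) :
    ∀ m : ℕ, m ≤ M → ff Q m ≤ Real.exp (-(m * VV Q)) := by
  obtain ⟨h0, -, -, -, h5⟩ := b4 M hM Q hQ
  intro m
  induction m with
  | zero =>
    intro _
    rw [ff_zero]
    simp
  | succ m ih =>
    intro hm
    have h1 := h5 m 1 hm
    have h2 := ih (by omega)
    have h3 : ff Q 1 ≤ Real.exp (-VV Q) := by
      rw [ff_one]
      have := Real.add_one_le_exp (-VV Q)
      linarith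
    have h4 := h0 1 (by omega)
    calc ff Q (m + 1) ≤ ff Q m * ff Q 1 := h1
      _ ≤ Real.exp (-(m * VV Q)) * Real.exp (-VV Q) := mul_le_mul h2 h3 h4.1 (Real.exp_pos _).le
      _ = Real.exp (-((m + 1 : ℕ) * VV Q)) := by
        rw [← Real.exp_add]
        congr 1
        push_cast
        ring

theorem d1 (b3 : St_B3) (b4 : St_B4) (b5 : St_B5) : St_D1 := by
  intro Ω _ P X hX Q Q' hQQ hprime M hM hMQ S S' hdisj hinj hSM hVV
  have hP := hX.prob
  have hQ : ∀ q ∈ Q, M ≤ q := fun q hq => hMQ q (hQQ hq)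
  -- the probability that all of `S ∪ S'` is hit
  have h1 : P.real {ω | Hit (fun p => X p ω) Q S ∧ Hit (fun p => X p ω) Q' S'} ≤
      HP P X Q' (S ∪ S') := by
    unfold HP
    refine measureReal_mono ?_ (measure_ne_top _ _)
    rintro ω ⟨h2, h3⟩ n hn
    rcases mem_union.1 hn with h4 | h4
    · obtain ⟨p, hp, h5⟩ := h2 n h4
      exact ⟨p, hQQ hp, h5⟩
    · exact h3 n h4
  have h2 : HP P X Q' (S ∪ S') = ff Q' (#S + #S') := by
    rw [b3 P X hX Q' hprime (S ∪ S') hinj, card_union_of_disjoint hdisj]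
  obtain ⟨h0, -, -, -, h5⟩ := b4 M hM Q' hMQ
  have h3 : ff Q' (#S + #S') ≤ ff Q' #S * ff Q' #S' := h5 _ _ (by omega)
  have h4 : ff Q' #S * ff Q' #S' ≤ Real.exp (-(#S * VV Q')) * Real.exp (-(#S' * VV Q')) :=
    mul_le_mul (ff_exp b4 hM Q' hMQ _ (by omega)) (ff_exp b4 hM Q' hMQ _ (by omega))
      (h0 _ (by omega)).1 (Real.exp_pos _).le
  have h6 : HP P X Q S = ff Q #S := by
    refine b3 P X hX Q (fun q hq => hprime q (hQQ hq)) S fun p hp => ?_
    exact (hinj p (hQQ hp)).mono (by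
      intro n hn
      exact mem_coe.2 (mem_union_left _ (mem_coe.1 hn)))
  have h7 := b5 M hM Q hQ #S (by omega) hVV
  have h8 : Real.exp (#S * (VV Q * (1 + 2 * #S / M) * (1 + 2 * VV Q) - VV Q') - #S' * VV Q') *
      Real.exp (-(#S * VV Q * (1 + 2 * #S / M) * (1 + 2 * VV Q))) =
      Real.exp (-(#S * VV Q')) * Real.exp (-(#S' * VV Q')) := by
    rw [← Real.exp_add, ← Real.exp_add]
    congr 1
    ring
  rw [h6]
  calc P.real {ω | Hit (fun p => X p ω) Q S ∧ Hit (fun p => X p ω) Q' S'}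
      ≤ ff Q' (#S + #S') := h1.trans (le_of_eq h2)
    _ ≤ ff Q' #S * ff Q' #S' := h3
    _ ≤ Real.exp (-(#S * VV Q')) * Real.exp (-(#S' * VV Q')) := h4
    _ = _ := h8.symm
    _ ≤ _ := mul_le_mul_of_nonneg_left h7 (Real.exp_pos _).le

end Pool.Agent.L5helper15.LG
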